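import Pool.Agent.P8H15.RM.Stm

set_option autoImplicit false

/-!
# RM/PZ: anti-concentration under a product tilt
-/

open MeasureTheory ProbabilityTheory

namespace Pool.Agent.P8H45.RM.Pz

open Pool.Agent.P8H15.RM

/-! ### bounded measurable functions -/

section good

variable {Ω : Type} [MeasurableSpace Ω]

/-- bounded measurable functions -/
def Good (f : Ω → ℝ) : Prop := Measurable f ∧ ∃ C, ∀ ω, |f ω| ≤ C

theorem Good.const (c : ℝ) : Good (fun _ : Ω => c) := ⟨measurable_const, |c|, fun _ => le_refl _⟩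

theorem Good.mul {f g : Ω → ℝ} (hf : Good f) (hg : Good g) : Good (fun ω => f ω * g ω) := by
  obtain ⟨h1, C, h2⟩ := hf
  obtain ⟨h3, C', h4⟩ := hg
  refine ⟨h1.mul h3, C * C', fun ω => ?_⟩
  rw [abs_mul]
  exact mul_le_mul (h2 ω) (h4 ω) (abs_nonneg _) ((abs_nonneg _).trans (h2 ω))

theorem Good.add {f g : Ω → ℝ} (hf : Good f) (hg : Good g) : Good (fun ω => f ω + g ω) := by
  obtain ⟨h1, C, h2⟩ := hf
  obtain ⟨h3, C', h4⟩ := hg
  exact ⟨h1.add h3, C + C', fun ω => (abs_add_le _ _).trans (add_le_add (h2 ω) (h4 ω))⟩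

theorem Good.sub {f g : Ω → ℝ} (hf : Good f) (hg : Good g) : Good (fun ω => f ω - g ω) := by
  have h1 := hf.add ((Good.const (-1)).mul hg)
  refine ⟨hf.1.sub hg.1, ?_⟩
  obtain ⟨C, h2⟩ := h1.2
  refine ⟨C, fun ω => ?_⟩
  have h3 : f ω - g ω = f ω + -1 * g ω := by ring
  change |f ω - g ω| ≤ C
  rw [h3]
  exact h2 ω

theorem Good.pow {f : Ω → ℝ} (hf : Good f) (k : ℕ) : Good (fun ω => f ω ^ k) := by
  induction k with
  | zero =>
    simp only [pow_zero]
    exact Good.const 1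
  | succ k ih =>
    simp only [pow_succ]
    exact ih.mul hf

theorem Good.prod {S : Finset ℕ} {f : ℕ → Ω → ℝ} (hf : ∀ q ∈ S, Good (f q)) :
    Good (fun ω => ∏ q ∈ S, f q ω) := by
  induction S using Finset.induction_on with
  | empty =>
    simp only [Finset.prod_empty]
    exact Good.const 1
  | insert q S hq ih =>
    simp only [Finset.prod_insert hq]
    exact (hf q (Finset.mem_insert_self _ _)).mul
      (ih fun r hr => hf r (Finset.mem_insert_of_mem hr))

theorem Good.sum {S : Finset ℕ} {f : ℕ → Ω → ℝ} (hf : ∀ q ∈ S, Good (f q)) :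
    Good (fun ω => ∑ q ∈ S, f q ω) := by
  induction S using Finset.induction_on with
  | empty =>
    simp only [Finset.sum_empty]
    exact Good.const 0
  | insert q S hq ih =>
    simp only [Finset.sum_insert hq]
    exact (hf q (Finset.mem_insert_self _ _)).add
      (ih fun r hr => hf r (Finset.mem_insert_of_mem hr))

theorem Good.int {P : Measure Ω} [IsProbabilityMeasure P] {f : Ω → ℝ} (hf : Good f) :
    Integrable f P := by
  obtain ⟨h1, C, h2⟩ := hf
  exact Integrable.of_bound h1.aestronglyMeasurable C (ae_of_all _ h2)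

end good

section fair

variable {Ω : Type} [MeasurableSpace Ω] {P : Measure Ω} [IsProbabilityMeasure P]
  {s : ℕ → Ω → ℝ}

theorem good_s (hF : Fair P s) (q : ℕ) : Good (s q) :=
  ⟨hF.meas q, 1, fun ω => by rcases hF.sgn q ω with h | h <;> rw [h] <;> norm_num⟩

theorem int_s (hF : Fair P s) (q : ℕ) : ∫ ω, s q ω ∂P = 0 := by
  have h1 : s q = fun ω => ({ω | s q ω = 1}.indicator (fun _ => (1 : ℝ)) ω) -
      ({ω | s q ω = -1}.indicator (fun _ => (1 : ℝ)) ω) := by
    funext ω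
    rcases hF.sgn q ω with h | h
    · rw [Set.indicator_of_mem (show ω ∈ {ω | s q ω = 1} from h),
        Set.indicator_of_notMem (show ω ∉ {ω | s q ω = -1} from fun h' => by
          have h2 : s q ω = -1 := h'
          rw [h] at h2
          norm_num at h2), h]
      norm_num
    · rw [Set.indicator_of_notMem (show ω ∉ {ω | s q ω = 1} from fun h' => by
          have h2 : s q ω = 1 := h'
          rw [h] at h2
          norm_num at h2), Set.indicator_of_mem (show ω ∈ {ω | s q ω = -1} from h), h]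
      norm_num
  have m1 : MeasurableSet {ω | s q ω = 1} := hF.meas q (measurableSet_singleton 1)
  have m2 : MeasurableSet {ω | s q ω = -1} := hF.meas q (measurableSet_singleton (-1))
  rw [h1, integral_sub, integral_indicator_const _ m1, integral_indicator_const _ m2, measureReal_def,
    measureReal_def, hF.one, hF.neg, sub_self]
  · exact (integrable_const _).indicator m1
  · exact (integrable_const _).indicator m2

/-- the mean of a function of one sign -/
theorem int_h (hF : Fair P s) (q : ℕ) (h : ℝ → ℝ) :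
    ∫ ω, h (s q ω) ∂P = (h 1 + h (-1)) / 2 := by
  have h1 : (fun ω => h (s q ω)) = fun ω => (h 1 + h (-1)) / 2 + (h 1 - h (-1)) / 2 * s q ω := by
    funext ω
    rcases hF.sgn q ω with h' | h' <;> rw [h'] <;> ring
  rw [h1, integral_add (integrable_const _) ((good_s hF q).int.const_mul _), integral_const_mul,
    int_s hF, mul_zero, add_zero, integral_const, measureReal_def, measure_univ]
  simp

/-- independence of a function of the signs in `S` and of another sign -/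
theorem step (hF : Fair P s) (S : Finset ℕ) (q : ℕ) (hq : q ∉ S) (a m : ℕ → ℝ) (k : ℕ)
    (h : ℝ → ℝ) (hh : Measurable h) :
    ∫ ω, ((∏ r ∈ S, (1 + m r * s r ω)) * (∑ r ∈ S, a r * (s r ω - m r)) ^ k) * h (s q ω) ∂P =
      (∫ ω, (∏ r ∈ S, (1 + m r * s r ω)) * (∑ r ∈ S, a r * (s r ω - m r)) ^ k ∂P) *
        ((h 1 + h (-1)) / 2) := by
  have h1 := hF.ind.indepFun_finset S {q} (Finset.disjoint_singleton_right.2 hq) hF.meas
  let φ : (S → ℝ) → ℝ := fun x => (∏ r : S, (1 + m r * x r)) * (∑ r : S, a r * (x r - m r)) ^ k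
  let ψ : (({q} : Finset ℕ) → ℝ) → ℝ := fun y => h (y ⟨q, Finset.mem_singleton_self q⟩)
  have mφ : Measurable φ := by
    refine Measurable.mul ?_ (Measurable.pow_const ?_ k)
    · exact Finset.measurable_fun_prod _ fun r _ =>
        measurable_const.add (measurable_const.mul (measurable_pi_apply r))
    · exact Finset.measurable_fun_sum _ fun r _ =>
        measurable_const.mul ((measurable_pi_apply r).sub measurable_const)
  have mψ : Measurable ψ := hh.comp (measurable_pi_apply _)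
  have h2 := h1.comp mφ mψ
  have e1 : ∀ ω, φ (fun r : S => s r ω) =
      (∏ r ∈ S, (1 + m r * s r ω)) * (∑ r ∈ S, a r * (s r ω - m r)) ^ k := by
    intro ω
    simp only [φ]
    rw [Finset.prod_coe_sort S (fun r => 1 + m r * s r ω),
      Finset.sum_coe_sort S (fun r => a r * (s r ω - m r))]
  have m1 : Measurable (φ ∘ fun ω (r : S) => s r ω) :=
    mφ.comp (measurable_pi_iff.2 fun r => hF.meas r)
  have m2 : Measurable (ψ ∘ fun ω (r : ({q} : Finset ℕ)) => s r ω) :=
    mψ.comp (measurable_pi_iff.2 fun r => hF.meas r)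
  have h3 := h2.integral_fun_mul_eq_mul_integral m1.aestronglyMeasurable m2.aestronglyMeasurable
  have e2 : ∀ ω, (φ ∘ fun ω (r : S) => s r ω) ω =
      (∏ r ∈ S, (1 + m r * s r ω)) * (∑ r ∈ S, a r * (s r ω - m r)) ^ k := e1
  have e3 : ∀ ω, (ψ ∘ fun ω (r : ({q} : Finset ℕ)) => s r ω) ω = h (s q ω) := fun ω => rfl
  simp only [e2, e3] at h3
  rw [h3, int_h hF]

/-- the moments -/
noncomputable def Mo (P : Measure Ω) (s : ℕ → Ω → ℝ) (a m : ℕ → ℝ) (S : Finset ℕ) (k : ℕ) : ℝ :=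
  ∫ ω, (∏ r ∈ S, (1 + m r * s r ω)) * (∑ r ∈ S, a r * (s r ω - m r)) ^ k ∂P

theorem good_W (hF : Fair P s) (m : ℕ → ℝ) (S : Finset ℕ) :
    Good (fun ω => ∏ r ∈ S, (1 + m r * s r ω)) :=
  Good.prod fun q _ => (Good.const 1).add ((Good.const (m q)).mul (good_s hF q))

theorem good_Z (hF : Fair P s) (a m : ℕ → ℝ) (S : Finset ℕ) :
    Good (fun ω => ∑ r ∈ S, a r * (s r ω - m r)) :=
  Good.sum fun q _ => (Good.const (a q)).mul ((good_s hF q).sub (Good.const (m q)))

theorem good_WZ (hF : Fair P s) (a m : ℕ → ℝ) (S : Finset ℕ) (k : ℕ) :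
    Good (fun ω => (∏ r ∈ S, (1 + m r * s r ω)) * (∑ r ∈ S, a r * (s r ω - m r)) ^ k) :=
  (good_W hF m S).mul ((good_Z hF a m S).pow k)

/-- one more sign -/
theorem Mo_insert (hF : Fair P s) (S : Finset ℕ) (q : ℕ) (hq : q ∉ S) (a m : ℕ → ℝ) (k : ℕ) :
    Mo P s a m (insert q S) k = ∑ j ∈ Finset.range (k + 1), Mo P s a m S j *
      (((1 + m q) * (a q * (1 - m q)) ^ (k - j) +
        (1 - m q) * (a q * (-1 - m q)) ^ (k - j)) / 2 * (k.choose j)) := by
  have h1 : ∀ ω, (∏ r ∈ insert q S, (1 + m r * s r ω)) *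
      (∑ r ∈ insert q S, a r * (s r ω - m r)) ^ k = ∑ j ∈ Finset.range (k + 1),
        ((∏ r ∈ S, (1 + m r * s r ω)) * (∑ r ∈ S, a r * (s r ω - m r)) ^ j) *
          ((1 + m q * s q ω) * (a q * (s q ω - m q)) ^ (k - j) * (k.choose j)) := by
    intro ω
    rw [Finset.prod_insert hq, Finset.sum_insert hq, add_comm (a q * (s q ω - m q)), add_pow,
      Finset.mul_sum]
    refine Finset.sum_congr rfl fun j _ => ?_
    ring
  have h2 : ∀ j, Good (fun ω => ((∏ r ∈ S, (1 + m r * s r ω)) *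
      (∑ r ∈ S, a r * (s r ω - m r)) ^ j) *
      ((1 + m q * s q ω) * (a q * (s q ω - m q)) ^ (k - j) * (k.choose j))) := fun j =>
    (good_WZ hF a m S j).mul ((((Good.const 1).add ((Good.const (m q)).mul (good_s hF q))).mul
      (((Good.const (a q)).mul ((good_s hF q).sub (Good.const (m q)))).pow _)).mul (Good.const _))
  unfold Mo
  simp only [h1]
  rw [integral_finsetSum _ fun j _ => (h2 j).int]
  refine Finset.sum_congr rfl fun j _ => ?_
  rw [step hF S q hq a m j (fun y => (1 + m q * y) * (a q * (y - m q)) ^ (k - j) * (k.choose j))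
    (by fun_prop)]
  congr 1
  ring

theorem moments (hF : Fair P s) (a m : ℕ → ℝ) (S : Finset ℕ) (hm : ∀ q ∈ S, |m q| ≤ 1 / 2) :
    Mo P s a m S 0 = 1 ∧ Mo P s a m S 1 = 0 ∧
      Mo P s a m S 2 ≤ ∑ q ∈ S, a q ^ 2 ∧ 3 / 4 * ∑ q ∈ S, a q ^ 2 ≤ Mo P s a m S 2 ∧
      Mo P s a m S 4 ≤ 3 * (∑ q ∈ S, a q ^ 2) ^ 2 := by
  induction S using Finset.induction_on with
  | empty => simp [Mo]
  | insert q S hq ih =>
    obtain ⟨i0, i1, i2, i2', i4⟩ := ih fun r hr => hm r (Finset.mem_insert_of_mem hr)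
    have hmq := hm q (Finset.mem_insert_self _ _)
    have hm2 : m q ^ 2 ≤ 1 / 4 := by
      have := sq_le_sq' (neg_le_of_abs_le hmq) (le_of_abs_le hmq)
      linarith
    have hm0 : 0 ≤ m q ^ 2 := sq_nonneg _
    have e0 := Mo_insert hF S q hq a m 0
    have e1 := Mo_insert hF S q hq a m 1
    have e2 := Mo_insert hF S q hq a m 2
    have e4 := Mo_insert hF S q hq a m 4
    simp only [Finset.sum_range_succ, Finset.range_zero, Finset.sum_empty, Nat.choose_zero_right,
      Nat.choose_self, Nat.choose_one_right, Nat.sub_zero, Nat.sub_self, Nat.reduceSub,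
      Nat.reduceAdd, zero_add, i0, i1, show Nat.choose 4 2 = 6 from rfl,
      show Nat.choose 4 3 = 4 from rfl] at e0 e1 e2 e4
    rw [Finset.sum_insert hq]
    obtain ⟨V, hV⟩ : ∃ V, V = ∑ r ∈ S, a r ^ 2 := ⟨_, rfl⟩
    rw [← hV] at i2 i2' i4 ⊢
    have hV0 : 0 ≤ V := by rw [hV]; exact Finset.sum_nonneg fun r _ => sq_nonneg _
    have f2 : Mo P s a m (insert q S) 2 = Mo P s a m S 2 + a q ^ 2 * (1 - m q ^ 2) := by
      rw [e2]
      push_cast
      ring
    have f4 : Mo P s a m (insert q S) 4 = Mo P s a m S 4 +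
        6 * Mo P s a m S 2 * (a q ^ 2 * (1 - m q ^ 2)) +
        a q ^ 4 * ((1 - m q ^ 2) * (1 + 3 * m q ^ 2)) := by
      rw [e4]
      push_cast
      ring
    have ha2 : 0 ≤ a q ^ 2 := sq_nonneg _
    refine ⟨?_, ?_, ?_, ?_, ?_⟩
    · rw [e0]
      push_cast
      ring
    · rw [e1]
      push_cast
      ring
    · rw [f2]
      nlinarith
    · rw [f2]
      nlinarith
    · rw [f4]
      have g1 : 6 * Mo P s a m S 2 * (a q ^ 2 * (1 - m q ^ 2)) ≤ 6 * V * a q ^ 2 := by
        have k1 : a q ^ 2 * (1 - m q ^ 2) ≤ a q ^ 2 := by nlinarith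
        have k2 : 0 ≤ a q ^ 2 * (1 - m q ^ 2) := mul_nonneg ha2 (by linarith)
        have k3 : 0 ≤ Mo P s a m S 2 := by nlinarith
        have k4 := mul_le_mul i2 k1 k2 hV0
        linarith
      have g2 : a q ^ 4 * ((1 - m q ^ 2) * (1 + 3 * m q ^ 2)) ≤ 3 * a q ^ 4 := by
        have k1 : (1 - m q ^ 2) * (1 + 3 * m q ^ 2) ≤ 3 := by nlinarith
        have k2 : 0 ≤ a q ^ 4 := by positivity
        have k3 := mul_le_mul_of_nonneg_left k1 k2
        linarith
      have g3 : 3 * (a q ^ 2 + V) ^ 2 = 3 * V ^ 2 + 6 * V * a q ^ 2 + 3 * a q ^ 4 := by ring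
      rw [g3]
      linarith

end fair

/-- the pointwise inequality -/
theorem pointwise (y : ℝ) : 4 / 25 * ((3 / 4 * (5 / 13) - 1 / 25) * y ^ 2 -
    1 / 4 * (5 / 13) ^ 3 * y ^ 4 + y / 2 - 1 / 16) ≤ if 1 / 16 ≤ y then (1 : ℝ) else 0 := by
  have h0 : ∀ w : ℝ, 0 ≤ w → 3 / 4 * (5 / 13) * w ^ 2 - 1 / 4 * (5 / 13) ^ 3 * w ^ 4 ≤ w / 2 := by
    intro w hw
    obtain ⟨v, hv⟩ : ∃ v : ℝ, v = 5 / 13 * w := ⟨_, rfl⟩
    have hv0 : 0 ≤ v := by rw [hv]; positivity
    have hw' : w = 13 / 5 * v := by rw [hv]; ring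
    have h1 : 0 ≤ v * (v - 1) ^ 2 * (v + 2) := by positivity
    rw [hw']
    nlinarith
  split_ifs with h
  · have h1 := h0 y (by linarith)
    nlinarith [sq_nonneg (y - 25 / 2)]
  · have h2 : y < 1 / 16 := not_le.1 h
    rcases le_total 0 y with h3 | h3
    · have h1 := h0 y h3
      nlinarith [sq_nonneg y]
    · have h1 := h0 (-y) (by linarith)
      have e2 : (-y) ^ 2 = y ^ 2 := by ring
      have e4 : (-y) ^ 4 = y ^ 4 := by ring
      rw [e2, e4] at h1
      nlinarith [sq_nonneg y]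

theorem pz : S_PZ := by
  intro Ω _ P _ s hF S a m _ hm hV1
  obtain ⟨V, hV⟩ : ∃ V, V = ∑ q ∈ S, a q ^ 2 := ⟨_, rfl⟩
  obtain ⟨i0, i1, i2, i2', i4⟩ := moments hF a m S hm
  rw [← hV] at i2 i2' i4 hV1 ⊢
  have hV0 : 0 < V := by linarith
  obtain ⟨σ, hσ⟩ : ∃ σ, σ = √V := ⟨_, rfl⟩
  have hσ0 : 0 < σ := by rw [hσ]; exact Real.sqrt_pos.2 hV0
  have hσ2 : σ ^ 2 = V := by rw [hσ]; exact Real.sq_sqrt hV0.le
  rw [← hσ]
  obtain ⟨c1, hc1⟩ : ∃ c1 : ℝ, c1 = 4 / 25 * (3 / 4 * (5 / 13) - 1 / 25) / V := ⟨_, rfl⟩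
  obtain ⟨c2, hc2⟩ : ∃ c2 : ℝ, c2 = 4 / 25 * (1 / 4 * (5 / 13) ^ 3) / V ^ 2 := ⟨_, rfl⟩
  have hint : ∫ ω, ((∏ q ∈ S, (1 + m q * s q ω)) *
      (c1 * (∑ q ∈ S, a q * (s q ω - m q)) ^ 2 - c2 * (∑ q ∈ S, a q * (s q ω - m q)) ^ 4 +
        4 / 25 / (2 * σ) * (∑ q ∈ S, a q * (s q ω - m q)) - 1 / 100)) ∂P =
      c1 * Mo P s a m S 2 - c2 * Mo P s a m S 4 + 4 / 25 / (2 * σ) * Mo P s a m S 1 -
        1 / 100 * Mo P s a m S 0 := by
    unfold Mo
    rw [← integral_const_mul, ← integral_const_mul, ← integral_const_mul, ← integral_const_mul,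
      ← integral_sub, ← integral_add, ← integral_sub]
    · congr 1
      funext ω
      ring
    · exact (((good_WZ hF a m S 2).int.const_mul c1).sub
        ((good_WZ hF a m S 4).int.const_mul c2)).add ((good_WZ hF a m S 1).int.const_mul _)
    · exact (good_WZ hF a m S 0).int.const_mul _
    · exact ((good_WZ hF a m S 2).int.const_mul c1).sub ((good_WZ hF a m S 4).int.const_mul c2)
    · exact (good_WZ hF a m S 1).int.const_mul _
    · exact (good_WZ hF a m S 2).int.const_mul c1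
    · exact (good_WZ hF a m S 4).int.const_mul c2
  have hlow : 1 / 200 ≤ c1 * Mo P s a m S 2 - c2 * Mo P s a m S 4 +
      4 / 25 / (2 * σ) * Mo P s a m S 1 - 1 / 100 * Mo P s a m S 0 := by
    rw [i0, i1]
    have k1 : c1 * V = 4 / 25 * (3 / 4 * (5 / 13) - 1 / 25) := by
      rw [hc1]
      field_simp
    have k2 : c2 * V ^ 2 = 4 / 25 * (1 / 4 * (5 / 13) ^ 3) := by
      rw [hc2]
      field_simp
    have k3 : 0 ≤ c1 := by
      rw [hc1]
      have : (0 : ℝ) ≤ 4 / 25 * (3 / 4 * (5 / 13) - 1 / 25) := by norm_num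
      positivity
    have k4 : 0 ≤ c2 := by rw [hc2]; positivity
    have k5 := mul_le_mul_of_nonneg_left i2' k3
    have k6 := mul_le_mul_of_nonneg_left i4 k4
    have k7 : c1 * (3 / 4 * V) = 3 / 4 * (4 / 25 * (3 / 4 * (5 / 13) - 1 / 25)) := by
      rw [← k1]
      ring
    have k8 : c2 * (3 * V ^ 2) = 3 * (4 / 25 * (1 / 4 * (5 / 13) ^ 3)) := by
      rw [← k2]
      ring
    rw [k7] at k5
    rw [k8] at k6
    norm_num at k5 k6 ⊢
    linarith
  refine hlow.trans ?_
  rw [← hint]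
  have gI : Good (fun ω => if σ / 16 ≤ ∑ q ∈ S, a q * (s q ω - m q) then (1 : ℝ) else 0) := by
    refine ⟨Measurable.ite (measurableSet_le measurable_const (good_Z hF a m S).1)
      measurable_const measurable_const, 1, fun ω => ?_⟩
    change |if σ / 16 ≤ ∑ q ∈ S, a q * (s q ω - m q) then (1 : ℝ) else 0| ≤ 1
    split_ifs <;> norm_num
  refine integral_mono ?_ ((good_W hF m S).mul gI).int fun ω => ?_
  · refine ((good_W hF m S).mul ?_).int
    exact ((((Good.const c1).mul ((good_Z hF a m S).pow 2)).sub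
      ((Good.const c2).mul ((good_Z hF a m S).pow 4))).add
      ((Good.const _).mul (good_Z hF a m S))).sub (Good.const _)
  · refine mul_le_mul_of_nonneg_left ?_ ?_
    · obtain ⟨Z, hZ⟩ : ∃ Z, Z = ∑ q ∈ S, a q * (s q ω - m q) := ⟨_, rfl⟩
      change c1 * (∑ q ∈ S, a q * (s q ω - m q)) ^ 2 - c2 * (∑ q ∈ S, a q * (s q ω - m q)) ^ 4 +
        4 / 25 / (2 * σ) * (∑ q ∈ S, a q * (s q ω - m q)) - 1 / 100 ≤
        if σ / 16 ≤ ∑ q ∈ S, a q * (s q ω - m q) then (1 : ℝ) else 0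
      rw [← hZ]
      have h1 := pointwise (Z / σ)
      have h2 : (1 / 16 ≤ Z / σ) = (σ / 16 ≤ Z) := by
        rw [le_div_iff₀ hσ0]
        congr 1
        ring
      simp only [h2] at h1
      refine le_trans (le_of_eq ?_) h1
      rw [hc1, hc2, ← hσ2]
      field_simp
      ring
    · refine Finset.prod_nonneg fun q hq => ?_
      have h1 := hm q hq
      have h2 := neg_le_of_abs_le h1
      have h3 := le_of_abs_le h1
      rcases hF.sgn q ω with h | h <;> rw [h] <;> linarith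

end Pool.Agent.P8H45.RM.Pz
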