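import Pool.Agent.P8H15.RM.Stm
import Pool.Agent.H341R2.PrimeSums

set_option autoImplicit false

/-!
# RM/ZT: sums over primes with a twist
-/

open Filter Topology

namespace Pool.Agent.P8H45.RM.Zt

open Pool.Agent.P8H15.RM Pool.Agent.H341R2

theorem exp_half : Real.exp (-(1 / 2)) < 1 := by
  have := Real.exp_lt_exp.2 (show (-(1 / 2) : ℝ) < 0 by norm_num)
  rwa [Real.exp_zero] at this

theorem of_event {p : ℝ → Prop} (h : ∀ᶠ ε in 𝓝[>] (0 : ℝ), p ε) :
    ∃ d : ℝ, 0 < d ∧ ∀ ε, 0 < ε → ε < d → p ε := by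
  obtain ⟨d, hd, h1⟩ := Metric.eventually_nhds_iff.1 (eventually_nhdsWithin_iff.1 h)
  refine ⟨d, hd, fun ε h2 h3 => h1 ?_ h2⟩
  rwa [Real.dist_eq, sub_zero, abs_of_pos h2]

/-- finite sums over primes as infinite sums -/
theorem sum_pr (N : ℕ) (F : ℕ → ℝ) :
    ∑ q ∈ pr N, F q = ∑' p : Nat.Primes, if (p : ℕ) ≤ N then F p else 0 := by
  have h1 := tsum_subtype {n : ℕ | n.Prime} (fun n => if n ≤ N then F n else 0)
  have h2 : (∑' p : Nat.Primes, if (p : ℕ) ≤ N then F p else 0) =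
      ∑' n : ℕ, Set.indicator {n : ℕ | n.Prime} (fun n => if n ≤ N then F n else 0) n := h1
  rw [h2, tsum_eq_sum (s := pr N)]
  · refine Finset.sum_congr rfl fun n hn => ?_
    obtain ⟨h3, h4⟩ := Finset.mem_filter.1 hn
    rw [Set.indicator_of_mem (show n ∈ {n : ℕ | n.Prime} from h4), if_pos (Finset.mem_Icc.1 h3).2]
  · intro n hn
    by_cases h3 : n.Prime
    · rw [Set.indicator_of_mem (show n ∈ {n : ℕ | n.Prime} from h3), if_neg]
      intro h4
      exact hn (Finset.mem_filter.2 ⟨Finset.mem_Icc.2 ⟨h3.one_lt.le, h4⟩, h3⟩)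
    · rw [Set.indicator_of_notMem (show n ∉ {n : ℕ | n.Prime} from h3)]

theorem summ {δ : ℝ} (h : 0 < δ) : Summable fun p : Nat.Primes => (p : ℝ) ^ (-(1 + δ)) :=
  summable_prime_rpow (by linarith)

/-- the tail -/
theorem tail {δ : ℝ} {N : ℕ} (hN : 2 ≤ N) (h : 1 / Real.log N ≤ δ) :
    (1 - Real.exp (-(1 / 2))) * (∑' p : Nat.Primes, if N < (p : ℕ) then (p : ℝ) ^ (-(1 + δ)) else 0) ≤
      lam (δ / 2) - lam δ := by
  have hN1 : (1 : ℝ) < N := by exact_mod_cast hN
  have hl : 0 < Real.log N := Real.log_pos hN1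
  have hδ : 0 < δ := lt_of_lt_of_le (by positivity) h
  have hδ2 : 0 < δ / 2 := by linarith
  have s1 : Summable fun p : Nat.Primes => if N < (p : ℕ) then (p : ℝ) ^ (-(1 + δ)) else 0 := by
    refine Summable.of_nonneg_of_le (fun p => ?_) (fun p => ?_) (summ hδ)
    · split_ifs <;> positivity
    · split_ifs
      · exact le_refl _
      · positivity
  unfold lam
  rw [← tsum_mul_left, ← (summ hδ2).tsum_sub (summ hδ)]
  refine (s1.mul_left _).tsum_le_tsum (fun p => ?_) ((summ hδ2).sub (summ hδ))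
  have hp1 : (1 : ℝ) < p := by exact_mod_cast p.2.one_lt
  have hp0 : (0 : ℝ) < p := by linarith
  have e1 : (p : ℝ) ^ (-(1 + δ)) = (p : ℝ) ^ (-(1 + δ / 2)) * (p : ℝ) ^ (-(δ / 2)) := by
    rw [← Real.rpow_add hp0]
    congr 1
    ring
  have e2 : 0 < (p : ℝ) ^ (-(1 + δ / 2)) := Real.rpow_pos_of_pos hp0 _
  have e3 : (p : ℝ) ^ (-(δ / 2)) ≤ 1 :=
    Real.rpow_le_one_of_one_le_of_nonpos hp1.le (by linarith)
  split_ifs with hNp
  · have e4 : (p : ℝ) ^ (-(δ / 2)) ≤ Real.exp (-(1 / 2)) := by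
      rw [Real.rpow_def_of_pos hp0]
      refine Real.exp_le_exp.2 ?_
      have h1 : Real.log N ≤ Real.log p :=
        Real.log_le_log (by linarith) (by exact_mod_cast hNp.le)
      have h2 : 1 ≤ δ * Real.log N := by
        rw [div_le_iff₀ hl] at h
        exact h
      have h3 : δ * Real.log N ≤ δ * Real.log p := mul_le_mul_of_nonneg_left h1 hδ.le
      nlinarith
    have e5 : 0 < (p : ℝ) ^ (-(δ / 2)) := Real.rpow_pos_of_pos hp0 _
    rw [e1]
    have e6 := exp_half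
    have e7 : (1 - Real.exp (-(1 / 2))) * (p : ℝ) ^ (-(δ / 2)) ≤ 1 - (p : ℝ) ^ (-(δ / 2)) := by
      nlinarith
    have e8 := mul_le_mul_of_nonneg_left e7 e2.le
    linarith
  · rw [mul_zero, e1]
    nlinarith

theorem abs_diff {δ : ℝ} (hδ : 0 < δ) (N : ℕ) (F : ℕ → ℝ)
    (hF : ∀ p : Nat.Primes, |F p| ≤ (p : ℝ) ^ (-(1 + δ))) :
    |(∑' p : Nat.Primes, F p) - ∑ q ∈ pr N, F q| ≤
      ∑' p : Nat.Primes, if N < (p : ℕ) then (p : ℝ) ^ (-(1 + δ)) else 0 := by
  have s0 : Summable fun p : Nat.Primes => F p :=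
    Summable.of_norm_bounded (E := ℝ) (summ hδ) hF
  have s1 : Summable fun p : Nat.Primes => if (p : ℕ) ≤ N then F p else 0 := by
    refine Summable.of_norm_bounded (E := ℝ) (summ hδ) fun p => ?_
    by_cases h : (p : ℕ) ≤ N
    · rw [if_pos h]
      exact hF p
    · rw [if_neg h, norm_zero]
      exact Real.rpow_nonneg (Nat.cast_nonneg _) _
  have s2 : Summable fun p : Nat.Primes => if N < (p : ℕ) then (p : ℝ) ^ (-(1 + δ)) else 0 := by
    refine Summable.of_nonneg_of_le (fun p => ?_) (fun p => ?_) (summ hδ)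
    · split_ifs <;> positivity
    · split_ifs
      · exact le_refl _
      · positivity
  rw [sum_pr, ← s0.tsum_sub s1]
  rw [← Real.norm_eq_abs]
  refine tsum_of_norm_bounded s2.hasSum fun p => ?_
  by_cases h : (p : ℕ) ≤ N
  · rw [if_pos h, if_neg (not_lt.2 h), sub_self, norm_zero]
  · rw [if_neg h, if_pos (not_le.1 h), sub_zero]
    exact hF p

/-- the real part of the prime sum -/
theorem re_eq {δ : ℝ} (hδ : 0 < δ) (τ : ℝ) :
    (∑' p : Nat.Primes, (1 : DirichletCharacter ℂ 1) p *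
      ((p : ℕ) : ℂ) ^ (-(1 + δ + τ * Complex.I))).re =
    ∑' p : Nat.Primes, (p : ℝ) ^ (-(1 + δ)) * Real.cos (τ * Real.log p) := by
  have h1 : ∀ p : Nat.Primes, (1 : DirichletCharacter ℂ 1) p *
      ((p : ℕ) : ℂ) ^ (-(1 + δ + τ * Complex.I)) = ((p : ℕ) : ℂ) ^ (-(1 + δ + τ * Complex.I)) := by
    intro p
    have : ((1 : DirichletCharacter ℂ 1) p : ℂ) = 1 := by
      refine MulChar.one_apply ?_
      exact isUnit_of_subsingleton _
    rw [this, one_mul]
  have h2 : ∀ p : Nat.Primes, ‖((p : ℕ) : ℂ) ^ (-(1 + δ + τ * Complex.I))‖ =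
      (p : ℝ) ^ (-(1 + δ)) := by
    intro p
    rw [norm_prime_cpow]
    congr 1
    simp
  have h3 : Summable fun p : Nat.Primes => ((p : ℕ) : ℂ) ^ (-(1 + δ + τ * Complex.I)) :=
    Summable.of_norm_bounded (summ hδ) fun p => (h2 p).le
  rw [tsum_congr h1, Complex.re_tsum h3]
  refine tsum_congr fun p => ?_
  have hp0 : (0 : ℝ) < p := by exact_mod_cast p.2.pos
  have hp1 : ((p : ℕ) : ℂ) ≠ 0 := by exact_mod_cast p.2.ne_zero
  rw [Complex.cpow_def_of_ne_zero hp1, Complex.exp_re, Real.rpow_def_of_pos hp0,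
    ← Complex.ofReal_natCast, ← Complex.ofReal_log hp0.le]
  have e1 : (((Real.log p : ℝ) : ℂ) * -(1 + δ + τ * Complex.I)).re = Real.log p * -(1 + δ) := by
    rw [Complex.re_ofReal_mul]
    congr 1
    simp
  have e2 : (((Real.log p : ℝ) : ℂ) * -(1 + δ + τ * Complex.I)).im = -(τ * Real.log p) := by
    rw [Complex.im_ofReal_mul]
    have : (-(1 + δ + τ * Complex.I) : ℂ).im = -τ := by simp
    rw [this]
    ring
  rw [e1, e2, Real.cos_neg]

theorem zt : S_ZT := by
  intro t ht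
  obtain ⟨C₁, h1⟩ := primeSum_bounded (1 : DirichletCharacter ℂ 1) (2 * t)
    (Or.inr (mul_ne_zero two_ne_zero ht))
  obtain ⟨C₂, h2⟩ := lam_bounded
  obtain ⟨d₁, hd1, k1⟩ := of_event h1
  obtain ⟨d₂, hd2, k2⟩ := of_event h2
  obtain ⟨d, hd0, hda, hdb⟩ : ∃ d : ℝ, 0 < d ∧ d ≤ d₁ ∧ d ≤ d₂ :=
    ⟨min d₁ d₂, lt_min hd1 hd2, min_le_left _ _, min_le_right _ _⟩
  obtain ⟨N₀, hN₀⟩ := exists_nat_gt (Real.exp (2 / d))
  obtain ⟨E, hE⟩ : ∃ E : ℝ, E = 1 - Real.exp (-(1 / 2)) := ⟨_, rfl⟩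
  have hE0 : 0 < E := by
    rw [hE]
    have := exp_half
    linarith
  obtain ⟨T, hT⟩ : ∃ T : ℝ, T = (2 * C₂ + Real.log 2) / E := ⟨_, rfl⟩
  refine ⟨|C₁| + |T| + |C₂| + Real.log 2 + N₀, fun N hN δ hδ1 hδ2 => ?_⟩
  have hN1 : (1 : ℝ) < N := by exact_mod_cast hN
  have hl : 0 < Real.log N := Real.log_pos hN1
  have hδ : 0 < δ := lt_of_lt_of_le (by positivity) hδ1
  have hl2 : 0 < Real.log 2 := Real.log_pos (by norm_num)
  have a1 := abs_nonneg C₁
  have a2 := abs_nonneg T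
  have a3 := abs_nonneg C₂
  have a4 : (0 : ℝ) ≤ N₀ := Nat.cast_nonneg _
  rcases lt_or_ge N N₀ with hNN | hNN
  · -- small `N`
    have hNN' : (N : ℝ) ≤ N₀ := by exact_mod_cast hNN.le
    have b1 : ∀ q ∈ pr N, (q : ℝ) ^ (-(1 + δ)) ≤ 1 ∧ 0 ≤ (q : ℝ) ^ (-(1 + δ)) := by
      intro q hq
      have h3 : (1 : ℝ) ≤ q := by exact_mod_cast (Finset.mem_Icc.1 (Finset.mem_filter.1 hq).1).1
      exact ⟨Real.rpow_le_one_of_one_le_of_nonpos h3 (by linarith), by positivity⟩
    have b2 : ((pr N).card : ℝ) ≤ N := by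
      have := Finset.card_filter_le (Finset.Icc 1 N) Nat.Prime
      rw [Nat.card_Icc, Nat.add_sub_cancel] at this
      exact_mod_cast this
    constructor
    · have b3 : |∑ q ∈ pr N, (q : ℝ) ^ (-(1 + δ)) * Real.cos (2 * t * Real.log q)| ≤
          ∑ q ∈ pr N, (1 : ℝ) := by
        refine (Finset.abs_sum_le_sum_abs _ _).trans (Finset.sum_le_sum fun q hq => ?_)
        obtain ⟨b4, b5⟩ := b1 q hq
        rw [abs_mul, abs_of_nonneg b5]
        exact mul_le_one₀ b4 (abs_nonneg _) (Real.abs_cos_le_one _)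
      rw [Finset.sum_const, nsmul_eq_mul, mul_one] at b3
      linarith
    · have b3 : 0 ≤ ∑ q ∈ pr N, (q : ℝ) ^ (-(1 + δ)) := Finset.sum_nonneg fun q hq => (b1 q hq).2
      have b4 : Real.log (Real.log N) ≤ N := by
        have c1 := Real.log_le_sub_one_of_pos hl
        have c2 := Real.log_le_sub_one_of_pos (show (0 : ℝ) < N by linarith)
        linarith
      linarith
  · -- large `N`
    have hδd : δ < d := by
      have c1 : 2 / d < Real.log N := by
        rw [← Real.log_exp (2 / d)]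
        refine Real.log_lt_log (Real.exp_pos _) (hN₀.trans_le (by exact_mod_cast hNN))
      have c2 : 2 / Real.log N < d := by
        rw [div_lt_iff₀ hd0] at c1
        rw [div_lt_iff₀ hl]
        linarith
      linarith
    have hlam := k2 δ hδ (by linarith)
    have hlam2 := k2 (δ / 2) (by linarith) (by linarith)
    have htail := tail hN hδ1
    rw [← hE] at htail
    have hTT : (∑' p : Nat.Primes, if N < (p : ℕ) then (p : ℝ) ^ (-(1 + δ)) else 0) ≤ |T| := by
      refine le_trans ?_ (le_abs_self T)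
      rw [hT, le_div_iff₀ hE0]
      have c1 := abs_le.1 hlam
      have c2 := abs_le.1 hlam2
      have c3 : Real.log (δ / 2) = Real.log δ - Real.log 2 :=
        Real.log_div hδ.ne' (by norm_num)
      rw [c3] at c2
      linarith [c1.1, c1.2, c2.1, c2.2]
    constructor
    · have c1 := k1 δ hδ (by linarith)
      have c1' : |(∑' p : Nat.Primes, (1 : DirichletCharacter ℂ 1) p *
        ((p : ℕ) : ℂ) ^ (-(1 + δ + ((2 * t : ℝ) : ℂ) * Complex.I))).re| ≤ C₁ := c1
      rw [re_eq hδ (2 * t)] at c1'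
      have c2 := abs_diff hδ N (fun q => (q : ℝ) ^ (-(1 + δ)) * Real.cos (2 * t * Real.log q))
        (fun p => by
          have hp0 : (0 : ℝ) ≤ (p : ℝ) ^ (-(1 + δ)) := by positivity
          rw [abs_mul, abs_of_nonneg hp0]
          exact mul_le_of_le_one_right hp0 (Real.abs_cos_le_one _))
      have c3 := abs_le.1 c1'
      have c4 := abs_le.1 c2
      have c5 := le_abs_self C₁
      rw [abs_le]
      constructor <;> linarith [c3.1, c3.2, c4.1, c4.2]
    · have c2 := abs_diff hδ N (fun q => (q : ℝ) ^ (-(1 + δ))) (fun p => by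
          have hp0 : (0 : ℝ) ≤ (p : ℝ) ^ (-(1 + δ)) := by positivity
          rw [abs_of_nonneg hp0])
      have c4 := abs_le.1 c2
      have c1 := abs_le.1 hlam
      have c6 : lam δ = ∑' p : Nat.Primes, (p : ℝ) ^ (-(1 + δ)) := rfl
      have c7 : Real.log δ ≤ Real.log 2 - Real.log (Real.log N) := by
        rw [← Real.log_div (by norm_num) hl.ne']
        exact Real.log_le_log hδ hδ2
      have c8 := le_abs_self C₂
      rw [c6] at c1
      linarith [c1.1, c1.2, c4.1, c4.2]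

end Pool.Agent.P8H45.RM.Zt
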